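import Pool.Agent.X40.Tree.Data0
import Pool.Agent.X40.Tree.Data1
import Pool.Agent.X40.Tree.Data2
import Pool.Agent.X40.Tree.Data3
import Pool.Agent.X40.Tree.Data4
import Pool.Agent.X40.Tree.Data5
import Pool.Agent.X40.Tree.Data6
import Pool.Agent.X40.Tree.Data7

/-!
# MP_28a92f_nt: connected quadratic functional graphs with a fixed point

For the prime `p = 1113643` and `a = 1 / 4` the functional graph of `x ↦ x ^ 2 + a` on `ZMod p` is
connected and its only cycle is the fixed point `1 / 2`.

The substitution `x = y + 1 / 2` gives the map `y ↦ y ^ 2 + y`; that all elements reach zero is shown by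
counting the vertices of the backward tree of `-1`.
-/

set_option autoImplicit false

namespace Pool.Agent.Results.MP_28a92f_nt.ConnectedGraph

open Function Pool.Agent.X40.Tree

/-- the functional graph of `x ↦ x ^ 2 + a` on `ZMod p`, without the directions (and without loops) -/
def G (p : ℕ) (a : ZMod p) : SimpleGraph (ZMod p) :=
  SimpleGraph.fromRel (fun x y => y = x ^ 2 + a)

lemma total : Link 556820 s0 s112 := by
  have h1 : Link 140000 s0 s28 := L0.trans L1 (by norm_num)
  have h2 : Link 210000 s0 s42 := h1.trans L2 (by norm_num)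
  have h3 : Link 280000 s0 s56 := h2.trans L3 (by norm_num)
  have h4 : Link 350000 s0 s70 := h3.trans L4 (by norm_num)
  have h5 : Link 420000 s0 s84 := h4.trans L5 (by norm_num)
  have h6 : Link 490000 s0 s98 := h5.trans L6 (by norm_num)
  exact h6.trans L7 (by norm_num)

instance prime_P : Fact (Nat.Prime P) := ⟨by norm_num [P]⟩

lemma good_neg_one : Good (-1 : ZMod P) := by
  refine ⟨neg_ne_zero.2 one_ne_zero, 1, ?_⟩
  rw [iterate_one, f]
  ring

lemma cast_s0 : ((1113642 : ℕ) : ZMod P) = -1 := by
  have h : ((1113642 + 1 : ℕ) : ZMod P) = 0 := ZMod.natCast_self P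
  rw [Nat.cast_add, Nat.cast_one] at h
  linear_combination h

lemma sum_singleton_aux (F : ℕ → ℕ) (a : ℕ) : ([a].map F).sum = F a := by simp

lemma card_anc : 1113640 ≤ (anc (-1 : ZMod P)).card := by
  have h := total (by
    intro c hc
    have : c = 1113642 := by simpa [s0] using hc
    rw [this, cast_s0]
    exact good_neg_one)
  have h1 : wt s0 = (anc ((1113642 : ℕ) : ZMod P)).card := sum_singleton_aux _ _
  have h2 := h.2
  rw [h1, cast_s0] at h2
  generalize (anc (-1 : ZMod P)).card = N at h2 ⊢
  omega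

/-- if sufficiently many elements reach zero then all elements reach zero -/
lemma reach_aux (A : Finset (ZMod P)) (hanc : ∀ y ∈ A, ∃ k : ℕ, f^[k] y = 0) (hm1 : -1 ∉ A)
    (h00 : 0 ∉ A) (hcard : 1113640 ≤ A.card) (x : ZMod P) : ∃ k : ℕ, f^[k] x = 0 := by
  classical
  by_contra hx
  -- `x`, `f x` do not reach zero
  have hfx : ¬ ∃ k : ℕ, f^[k] (f x) = 0 := by
    rintro ⟨k, hk⟩
    exact hx ⟨k + 1, hk⟩
  have hx0 : x ≠ 0 := by
    rintro rfl
    exact hx ⟨0, rfl⟩
  have hxf : x ≠ f x := by
    intro h
    apply hx0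
    have h1 : x * x = 0 := by
      have h2 : x = x * x + x := h
      linear_combination -h2
    exact mul_self_eq_zero.1 h1
  have h0 : (0 : ZMod P) ∉ insert (-1) A := by
    rw [Finset.mem_insert]
    rintro (h | h)
    · exact good_neg_one.1 h.symm
    · exact h00 h
  have hr : ∀ y ∈ insert 0 (insert (-1) A), ∃ k : ℕ, f^[k] y = 0 := by
    intro y hy
    rw [Finset.mem_insert, Finset.mem_insert] at hy
    rcases hy with rfl | rfl | hy
    · exact ⟨0, rfl⟩
    · exact good_neg_one.2
    · exact hanc y hy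
  have h1 : x ∉ insert 0 (insert (-1) A) := fun h => hx (hr x h)
  have h2 : f x ∉ insert 0 (insert (-1) A) := fun h => hfx (hr _ h)
  have h3 : x ∉ insert (f x) (insert 0 (insert (-1) A)) := by
    rw [Finset.mem_insert]
    rintro (h | h)
    · exact hxf h
    · exact h1 h
  have h4 := Finset.card_le_univ (insert x (insert (f x) (insert 0 (insert (-1) A))))
  rw [Finset.card_insert_of_notMem h3, Finset.card_insert_of_notMem h2, Finset.card_insert_of_notMem h0,
    Finset.card_insert_of_notMem hm1, ZMod.card] at h4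
  unfold P at h4
  omega

/-- all elements reach zero -/
lemma reach (x : ZMod P) : ∃ k : ℕ, f^[k] x = 0 := by
  refine reach_aux (anc (-1 : ZMod P)) ?_ ?_ ?_ card_anc x
  · intro y hy
    obtain ⟨k, hk⟩ := mem_anc.1 hy
    refine ⟨k + 1 + 1, ?_⟩
    rw [iterate_succ_apply', hk, f]
    ring
  · intro h
    obtain ⟨k, hk⟩ := mem_anc.1 h
    exact good_neg_one.not_periodic k hk
  · intro h
    obtain ⟨k, hk⟩ := mem_anc.1 h
    rw [iter_zero] at hk
    exact good_neg_one.1 hk.symm

/-- the number `1 / 2` of `ZMod P` -/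
def w : ZMod P := ((556822 : ℕ) : ZMod P)

lemma two_w : 2 * w = 1 := by
  have h : ((2 * 556822 : ℕ) : ZMod P) = ((1 + P : ℕ) : ZMod P) := rfl
  rw [Nat.cast_add, ZMod.natCast_self, add_zero, Nat.cast_mul] at h
  unfold w
  exact_mod_cast h

/-- the map `x ↦ x ^ 2 + 1 / 4` -/
def g (x : ZMod P) : ZMod P := x ^ 2 + w ^ 2

lemma semi (y : ZMod P) : g (y + w) = f y + w := by
  rw [g, f]
  linear_combination (y + w) * two_w

lemma semi_iter (k : ℕ) (y : ZMod P) : g^[k] (y + w) = f^[k] y + w := by
  induction k generalizing y with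
  | zero => rfl
  | succ k ih => rw [iterate_succ_apply, iterate_succ_apply, semi, ih]

lemma reach_g (x : ZMod P) : ∃ k : ℕ, g^[k] x = w := by
  obtain ⟨k, hk⟩ := reach (x - w)
  refine ⟨k, ?_⟩
  have := semi_iter k (x - w)
  rw [hk, zero_add, sub_add_cancel] at this
  exact this

lemma g_w : g w = w := by
  have := semi 0
  rwa [zero_add, f_zero, zero_add] at this

lemma iter_w (k : ℕ) : g^[k] w = w := by
  induction k with
  | zero => rfl
  | succ k ih => rw [iterate_succ_apply, g_w, ih]

lemma adj_reachable (x : ZMod P) : (G P (w ^ 2)).Reachable x (g x) := by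
  by_cases h : x = g x
  · rw [← h]
  · apply SimpleGraph.Adj.reachable
    rw [G, SimpleGraph.fromRel_adj]
    exact ⟨h, Or.inl rfl⟩

lemma iter_reachable (k : ℕ) (x : ZMod P) : (G P (w ^ 2)).Reachable x (g^[k] x) := by
  induction k with
  | zero => exact SimpleGraph.Reachable.refl _
  | succ k ih =>
    rw [iterate_succ_apply']
    exact ih.trans (adj_reachable _)

/-- **Disproof of MP_28a92f_nt, Q1**: for the prime `p = 1113643` there is an `a` in `ZMod p` for which the
functional graph of `x ↦ x ^ 2 + a` is connected and for which this map has exactly one periodic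
point, so that the only cycle is a fixed point. -/
theorem result :
    (¬ ∀ p : ℕ, p.Prime → 7 < p → ¬ ∃ a : ZMod p,
      (G p a).Connected ∧ ∃! x, x ∈ periodicPts (fun x : ZMod p => x ^ 2 + a)) ∧
    Nat.Prime 1113643 ∧ ∃ a : ZMod 1113643, 4 * a = 1 ∧
      (G 1113643 a).Connected ∧ ∃! x, x ∈ periodicPts (fun x : ZMod 1113643 => x ^ 2 + a) := by
  have hp : Nat.Prime P := prime_P.out
  have h4 : 4 * w ^ 2 = 1 := by
    linear_combination (2 * w + 1) * two_w
  have hconn : (G P (w ^ 2)).Connected := by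
    rw [SimpleGraph.connected_iff_exists_forall_reachable]
    refine ⟨w, fun x => ?_⟩
    obtain ⟨k, hk⟩ := reach_g x
    have := iter_reachable k x
    rw [hk] at this
    exact this.symm
  have hper : ∃! x, x ∈ periodicPts (fun x : ZMod P => x ^ 2 + w ^ 2) := by
    refine ⟨w, ?_, ?_⟩
    · exact ⟨1, Nat.one_pos, g_w⟩
    · rintro x ⟨n, hn, hx⟩
      obtain ⟨k, hk⟩ := reach_g x
      have hx' : g^[n] x = x := hx
      have h1 : g^[n * (k + 1)] x = x := by
        rw [iterate_mul]
        exact iterate_fixed hx' _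
      obtain ⟨m, hm⟩ : ∃ m, n * (k + 1) = m + k := ⟨n * (k + 1) - k, by
        have : k + 1 ≤ n * (k + 1) := Nat.le_mul_of_pos_left _ hn
        omega⟩
      rw [← h1, hm, iterate_add_apply, hk, iter_w]
  refine ⟨?_, hp, w ^ 2, h4, hconn, hper⟩
  intro h
  exact h P hp (by norm_num) ⟨w ^ 2, hconn, hper⟩

end Pool.Agent.Results.MP_28a92f_nt.ConnectedGraph
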